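import Pool.Agent.U753.MX.Stm

/-!
# Project MX, package MI: a minimiser of the relative entropy
-/

set_option autoImplicit false

open scoped BigOperators Matrix ComplexOrder
open scoped Matrix.Norms.L2Operator

namespace Pool.Agent.U894.MX

open Pool.Agent.TH235.PP (BoxOp TorOp Site term ham sh normSq ip)
open Pool.Agent.U753.MX

/-- The shift is injective on boxes of side at most `L`. -/
lemma sh_inj {r L : ℕ} [NeZero L] (hr : r ≤ L) (u : Site L) :
    Function.Injective (sh (R := r) u) := by
  intro x y h
  unfold sh at h
  rw [Prod.mk.injEq] at h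
  have h1 := add_left_cancel h.1
  have h2 := add_left_cancel h.2
  have key : ∀ a b : Fin r, ((a : ℕ) : ZMod L) = ((b : ℕ) : ZMod L) → a = b := by
    intro a b hab
    rw [ZMod.natCast_eq_natCast_iff'] at hab
    rw [Nat.mod_eq_of_lt (a.2.trans_le hr), Nat.mod_eq_of_lt (b.2.trans_le hr)] at hab
    exact Fin.ext hab
  exact Prod.ext (key _ _ h1) (key _ _ h2)

/-- An entry is at most the operator norm. -/
lemma entry_le_norm {n : Type} [Fintype n] [DecidableEq n] (A : Matrix n n ℂ) (i j : n) :
    ‖A i j‖ ≤ ‖A‖ := by
  have h1 := Matrix.l2_opNorm_mulVec A (EuclideanSpace.single j (1 : ℂ))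
  have h2 : ‖(EuclideanSpace.single j (1 : ℂ) : EuclideanSpace ℂ n)‖ = 1 := by simp
  rw [h2, mul_one] at h1
  refine le_trans ?_ h1
  have h3 := PiLp.norm_apply_le
    (WithLp.toLp 2 (A *ᵥ (EuclideanSpace.single j (1 : ℂ) : EuclideanSpace ℂ n).ofLp) :
      EuclideanSpace ℂ n) i
  refine le_trans (le_of_eq ?_) h3
  congr 1
  change A i j = (A *ᵥ (Pi.single j (1 : ℂ))) i
  rw [Matrix.mulVec_single_one]
  rfl

/-- The entries of an operator of a box are entries of its translate. -/
lemma entry_term {d r L : ℕ} [NeZero L] (hd : 0 < d) (hr : r ≤ L) (h : BoxOp d r) (u : Site L)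
    (p q : Fin r × Fin r → Fin d) : ‖h p q‖ ≤ ‖term h u‖ := by
  classical
  set s : Site L → Fin d := fun v =>
    if hv : ∃ x, sh u x = v then p hv.choose else ⟨0, hd⟩ with hs
  set t : Site L → Fin d := fun v =>
    if hv : ∃ x, sh u x = v then q hv.choose else ⟨0, hd⟩ with ht
  have hsx : ∀ x, s (sh u x) = p x := by
    intro x
    have hx : ∃ y, sh u y = sh u x := ⟨x, rfl⟩
    rw [hs]
    simp only
    rw [dif_pos hx]
    exact congrArg p (sh_inj hr u hx.choose_spec)
  have htx : ∀ x, t (sh u x) = q x := by
    intro x
    have hx : ∃ y, sh u y = sh u x := ⟨x, rfl⟩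
    rw [ht]
    simp only
    rw [dif_pos hx]
    exact congrArg q (sh_inj hr u hx.choose_spec)
  have e : term h u s t = h p q := by
    unfold term
    rw [if_pos]
    · congr 1
      · funext x; exact hsx x
      · funext x; exact htx x
    · intro v hv
      have hn : ¬ ∃ x : Fin r × Fin r, sh u x = v := by
        rintro ⟨x, hx⟩
        exact hv x hx
      rw [hs, ht]
      simp only
      rw [dif_neg hn, dif_neg hn]
  rw [← e]
  exact entry_le_norm _ _ _

/-- The translates depend continuously on the operator. -/
lemma cont_term {d r L : ℕ} [NeZero L] (u : Site L) :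
    Continuous (fun h : BoxOp d r => (term h u : TorOp d L)) := by
  classical
  refine continuous_matrix fun s t => ?_
  unfold term
  by_cases hc : ∀ v, (∀ x : Fin r × Fin r, sh u x ≠ v) → s v = t v
  · simp only [if_pos hc]
    exact continuous_apply_apply (ρ := fun _ _ => ℂ) _ _
  · simp only [if_neg hc]
    exact continuous_const

/-- The partition function of a Hermitian matrix is positive. -/
lemma part_pos {n : Type} [Fintype n] [DecidableEq n] [Nonempty n] (K : Matrix n n ℂ)
    (hK : K.IsHermitian) : 0 < part K := by
  set A : Matrix n n ℂ := (-(1 / 2 : ℂ)) • K with hA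
  have hAh : A.IsHermitian := by
    unfold Matrix.IsHermitian
    rw [hA, Matrix.conjTranspose_smul, hK.eq]
    simp
  have hEh : (NormedSpace.exp A).IsHermitian := Matrix.IsHermitian.exp hAh
  have hsum : A + A = -K := by
    rw [hA, ← add_smul]
    norm_num
  have hE : NormedSpace.exp (-K) = (NormedSpace.exp A)ᴴ * NormedSpace.exp A := by
    rw [hEh.eq, ← hsum]
    exact Matrix.exp_add_of_commute A A (Commute.refl A)
  have hne : NormedSpace.exp A ≠ 0 := (Matrix.isUnit_exp A).ne_zero
  unfold part
  rw [hE]
  have hps := (Matrix.posSemidef_conjTranspose_mul_self (NormedSpace.exp A)).trace_nonneg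
  have hre : 0 ≤ ((NormedSpace.exp A)ᴴ * NormedSpace.exp A).trace.re :=
    (Complex.nonneg_iff.mp hps).1
  refine lt_of_le_of_ne hre fun h0 => hne ?_
  rw [← Matrix.trace_conjTranspose_mul_self_eq_zero_iff]
  apply Complex.ext
  · exact h0.symm
  · exact (Complex.nonneg_iff.mp hps).2.symm

/-- A minimiser of the relative entropy exists. -/
theorem t_mi : StmMI := by
  intro d r L _ hd hr Ψ J hJ
  classical
  have : Nonempty (Site L → Fin d) := ⟨fun _ => ⟨0, hd⟩⟩
  have hct : ∀ u : Site L, Continuous
      (fun h : Site L → BoxOp d r => (term (h u) u : TorOp d L)) := fun u =>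
    (cont_term u).comp (continuous_apply u)
  have hnorm : Continuous (fun A : TorOp d L => ‖A‖) := continuous_norm
  -- the admissible set is closed
  have hclosed : IsClosed {h : Site L → BoxOp d r | Adm J h} := by
    unfold Adm
    rw [Set.ofPred_forall]
    refine isClosed_iInter fun u => ?_
    refine IsClosed.inter (s₁ := {h : Site L → BoxOp d r | (h u).IsHermitian})
      (s₂ := {h : Site L → BoxOp d r | ‖term (h u) u‖ ≤ J}) ?_ ?_
    · have e : {h : Site L → BoxOp d r | (h u).IsHermitian} =
          {h | Matrix.conjTranspose (h u) = h u} := rfl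
      rw [e]
      refine isClosed_eq ?_ (continuous_apply u)
      exact (continuous_apply u).matrix_conjTranspose
    · exact isClosed_le (hnorm.comp (hct u)) continuous_const
  -- it is contained in a compact set
  have hK : IsCompact {h : Site L → BoxOp d r | ∀ u p q, h u p q ∈ Metric.closedBall (0 : ℂ) J} := by
    have e : {h : Site L → BoxOp d r | ∀ u p q, h u p q ∈ Metric.closedBall (0 : ℂ) J} =
        Set.pi Set.univ fun _ : Site L => (Set.pi Set.univ fun _ => Set.pi Set.univ fun _ =>
          Metric.closedBall (0 : ℂ) J : Set (BoxOp d r)) := by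
      ext h
      constructor
      · intro hh u _ p _ q _
        exact hh u p q
      · intro hh u p q
        exact hh u trivial p trivial q trivial
    rw [e]
    refine isCompact_univ_pi fun u => ?_
    refine isCompact_univ_pi fun p => ?_
    refine isCompact_univ_pi fun q => ?_
    exact isCompact_closedBall _ _
  have hcomp : IsCompact {h : Site L → BoxOp d r | Adm J h} := by
    refine hK.of_isClosed_subset hclosed ?_
    intro h hh u p q
    rw [mem_closedBall_zero_iff]
    exact (entry_term hd hr (h u) u p q).trans (hh u).2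
  have hne : ({h : Site L → BoxOp d r | Adm J h}).Nonempty := by
    refine ⟨fun _ => 0, fun u => ⟨?_, ?_⟩⟩
    · exact Matrix.isHermitian_zero
    · have e : (term (0 : BoxOp d r) u : TorOp d L) = 0 := by
        ext s t
        unfold term
        split_ifs <;> rfl
      rw [e, norm_zero]
      exact hJ
  have hsum : Continuous (fun h : Site L → BoxOp d r => (∑ u, term (h u) u : TorOp d L)) :=
    continuous_finsetSum _ fun u _ => hct u
  letI : NormedAlgebra ℚ (TorOp d L) := NormedAlgebra.restrictScalars ℚ ℂ (TorOp d L)
  have hexp : Continuous (NormedSpace.exp : TorOp d L → TorOp d L) := NormedSpace.exp_continuous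
  have hpart : Continuous (fun K : TorOp d L => part K) := by
    unfold part
    exact Complex.continuous_re.comp ((hexp.comp continuous_neg).matrix_trace)
  have hip : Continuous (fun K : TorOp d L => (ip Ψ (K *ᵥ Ψ)).re) := by
    refine Complex.continuous_re.comp ?_
    unfold ip
    refine continuous_finsetSum _ fun s _ => continuous_const.mul ?_
    exact (continuous_apply s).comp (continuous_id.matrix_mulVec continuous_const)
  have hherm : ∀ h : Site L → BoxOp d r, Adm J h → (∑ u, term (h u) u : TorOp d L).IsHermitian := by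
    intro h hh
    exact isSelfAdjoint_sum _ fun u _ => Pool.Agent.TH235.PP.term_herm (h u) (hh u).1 u
  have hcont : ContinuousOn (relG (d := d) (r := r) (L := L) Ψ)
      {h : Site L → BoxOp d r | Adm J h} := by
    unfold relG
    refine ContinuousOn.add ?_ (hip.comp hsum).continuousOn
    refine ContinuousOn.log (hpart.comp hsum).continuousOn ?_
    intro h hh
    exact (part_pos _ (hherm h hh)).ne'
  obtain ⟨h, hh, hmin⟩ := hcomp.exists_isMinOn hne hcont
  exact ⟨h, hh, fun h' hh' => hmin hh'⟩

end Pool.Agent.U894.MX
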